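import Pool.Agent.helper36.PT.Spec

/-! # Row KLS of project PT: Kloosterman sums for squarefree moduli -/

set_option autoImplicit false

namespace Pool.Agent.PT

open Finset Pool.Agent.helper71.AA

/-- the Kloosterman sum -/
noncomputable def KLS_K (M : ℕ) [NeZero M] (m k : ZMod M) : ℂ :=
  ∑ x : (ZMod M)ˣ, ZMod.stdAddChar (m * ((x⁻¹ : (ZMod M)ˣ) : ZMod M) + k * (x : ZMod M))

lemma KLS_char (a b : ℕ) [NeZero a] [NeZero b] [NeZero (a * b)] (h : a.Coprime b) (u v : ℤ)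
    (huv : u * b + v * a = 1) (x : ZMod (a * b)) :
    (ZMod.stdAddChar x : ℂ) = ZMod.stdAddChar ((u : ZMod a) * (ZMod.chineseRemainder h x).1) *
      ZMod.stdAddChar ((v : ZMod b) * (ZMod.chineseRemainder h x).2) := by
  obtain ⟨j, rfl⟩ := ZMod.intCast_surjective x
  have e1 : (ZMod.chineseRemainder h (j : ZMod (a * b))) = (j : ZMod a × ZMod b) := map_intCast _ j
  rw [e1, Prod.fst_intCast, Prod.snd_intCast]
  have e2 : ((u : ZMod a) * (j : ZMod a)) = ((u * j : ℤ) : ZMod a) := by push_cast; rfl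
  have e3 : ((v : ZMod b) * (j : ZMod b)) = ((v * j : ℤ) : ZMod b) := by push_cast; rfl
  rw [e2, e3, ZMod.stdAddChar_coe, ZMod.stdAddChar_coe, ZMod.stdAddChar_coe, ← Complex.exp_add]
  congr 1
  have ha : (a : ℂ) ≠ 0 := by exact_mod_cast NeZero.ne a
  have hb : (b : ℂ) ≠ 0 := by exact_mod_cast NeZero.ne b
  have hc : (u : ℂ) * b + v * a = 1 := by exact_mod_cast huv
  push_cast
  field_simp
  linear_combination (-(j : ℂ)) * hc

lemma KLS_mul (a b : ℕ) [NeZero a] [NeZero b] [NeZero (a * b)] (h : a.Coprime b)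
    (m k : ZMod (a * b)) (hm : IsUnit m) : ∃ (m₁ k₁ : ZMod a) (m₂ k₂ : ZMod b), IsUnit m₁ ∧
      IsUnit m₂ ∧ KLS_K (a * b) m k = KLS_K a m₁ k₁ * KLS_K b m₂ k₂ := by
  have hco : IsCoprime (a : ℤ) (b : ℤ) := Nat.isCoprime_iff_coprime.2 h
  obtain ⟨v, u, huv'⟩ := hco
  have huv : u * b + v * a = 1 := by linarith
  have hu : IsUnit (u : ZMod a) := by
    have : ((u * b + v * a : ℤ) : ZMod a) = ((1 : ℤ) : ZMod a) := by rw [huv]
    push_cast at this
    rw [ZMod.natCast_self, mul_zero, add_zero] at this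
    exact IsUnit.of_mul_eq_one _ this
  have hv : IsUnit (v : ZMod b) := by
    have : ((u * b + v * a : ℤ) : ZMod b) = ((1 : ℤ) : ZMod b) := by rw [huv]
    push_cast at this
    rw [ZMod.natCast_self, mul_zero, zero_add] at this
    exact IsUnit.of_mul_eq_one _ this
  set φ := ZMod.chineseRemainder h with hφ
  have hφm : IsUnit (φ m) := hm.map φ
  have hm1 : IsUnit (φ m).1 := (Prod.isUnit_iff.1 hφm).1
  have hm2 : IsUnit (φ m).2 := (Prod.isUnit_iff.1 hφm).2
  refine ⟨u * (φ m).1, u * (φ k).1, v * (φ m).2, v * (φ k).2, hu.mul hm1, hv.mul hm2, ?_⟩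
  let E : (ZMod (a * b))ˣ ≃* (ZMod a)ˣ × (ZMod b)ˣ := (Units.mapEquiv φ.toMulEquiv).trans MulEquiv.prodUnits
  have hE1 : ∀ x : (ZMod (a * b))ˣ, (((E x).1 : (ZMod a)ˣ) : ZMod a) = (φ (x : ZMod (a * b))).1 :=
    fun x => rfl
  have hE2 : ∀ x : (ZMod (a * b))ˣ, (((E x).2 : (ZMod b)ˣ) : ZMod b) = (φ (x : ZMod (a * b))).2 :=
    fun x => rfl
  unfold KLS_K
  rw [Finset.sum_mul_sum, ← Finset.sum_product', Finset.univ_product_univ]
  rw [← Equiv.sum_comp E.toEquiv]
  refine Finset.sum_congr rfl fun x _ => ?_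
  have i1 : (E.toEquiv x) = E x := rfl
  rw [i1, KLS_char a b h u v huv]
  have j1 : (((E x).1⁻¹ : (ZMod a)ˣ) : ZMod a) = (φ ((x⁻¹ : (ZMod (a * b))ˣ) : ZMod (a * b))).1 := by
    rw [← hE1, map_inv]
    rfl
  have j2 : (((E x).2⁻¹ : (ZMod b)ˣ) : ZMod b) = (φ ((x⁻¹ : (ZMod (a * b))ˣ) : ZMod (a * b))).2 := by
    rw [← hE2, map_inv]
    rfl
  rw [j1, j2, hE1, hE2, ← hφ, map_add φ, map_mul φ, map_mul φ]
  simp only [Prod.fst_add, Prod.snd_add, Prod.fst_mul, Prod.snd_mul]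
  congr 2
  · ring
  · ring

theorem KLS (h1 : KLP_stmt) : KLS_stmt := by
  intro M
  induction M using Nat.strong_induction_on with
  | _ M ih =>
    intro hM0 hsq m k hm
    have hK : (∑ x : (ZMod M)ˣ, (ZMod.stdAddChar (m * ((x⁻¹ : (ZMod M)ˣ) : ZMod M) + k * (x : ZMod M)) : ℂ)) =
      KLS_K M m k := rfl
    rw [hK]
    by_cases hM1 : M = 1
    · subst hM1
      unfold KLS_K
      rw [Fintype.sum_subsingleton _ (1 : (ZMod 1)ˣ), AddChar.norm_apply]
      simp
    · obtain ⟨M', hM'⟩ := Nat.minFac_dvd M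
      have hl : M.minFac.Prime := Nat.minFac_prime hM1
      generalize M.minFac = l at hM' hl
      subst hM'
      have hne : l * M' ≠ 0 := hM0.out
      have hM'0 : M' ≠ 0 := right_ne_zero_of_mul hne
      have hl0 : l ≠ 0 := hl.ne_zero
      have hco : l.Coprime M' := Nat.coprime_of_squarefree_mul hsq
      have : NeZero l := ⟨hl0⟩
      have : NeZero M' := ⟨hM'0⟩
      have : Fact l.Prime := ⟨hl⟩
      obtain ⟨m₁, k₁, m₂, k₂, hm₁, hm₂, he⟩ := KLS_mul l M' hco m k hm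
      have hlt : M' < l * M' := by
        have := hl.two_le
        nlinarith [Nat.pos_of_ne_zero hM'0]
      have b2 := ih M' hlt (Squarefree.of_mul_right hsq) m₂ k₂ hm₂
      have b1 := h1 l m₁ k₁ hm₁.ne_zero
      have b1' : ‖KLS_K l m₁ k₁‖ ≤ 2 * Real.sqrt l := b1
      have b2' : ‖KLS_K M' m₂ k₂‖ ≤ 2 ^ M'.primeFactors.card * Real.sqrt M' := b2
      rw [he, norm_mul]
      have hc : (l * M').primeFactors.card = 1 + M'.primeFactors.card := by
        rw [hco.primeFactors_mul, Finset.card_union_of_disjoint hco.disjoint_primeFactors,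
          hl.primeFactors, Finset.card_singleton]
      rw [hc, pow_add, pow_one, Nat.cast_mul, Real.sqrt_mul (Nat.cast_nonneg l)]
      calc ‖KLS_K l m₁ k₁‖ * ‖KLS_K M' m₂ k₂‖
          ≤ (2 * Real.sqrt l) * (2 ^ M'.primeFactors.card * Real.sqrt M') :=
            mul_le_mul b1' b2' (norm_nonneg _) (by positivity)
        _ = 2 * 2 ^ M'.primeFactors.card * (Real.sqrt l * Real.sqrt M') := by ring

end Pool.Agent.PT
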