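import Pool.Agent.helper59.PT.Spec
import Pool.Agent.helper16.LSZ.F1
import Pool.Agent.helper16.LSZ.Psd

set_option linter.all false
set_option autoImplicit false

/-!
# Positivity under reflection of a Gaussian functional (row pt:TP, MP_2dd521_co)
-/

namespace Pool.Agent.helper48.PT

open MvPolynomial Finset
open scoped ComplexConjugate
open Pool.Agent.helper59.PT
open Pool.Agent.helper16.Fock

variable {V : Type} [Fintype V] [DecidableEq V]

/-- induction by multiplication with a variable, where the derivatives are also known -/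
theorem ind_deriv {p : MvPolynomial V ℂ → Prop} (h1 : ∀ a : ℂ, p (C a))
    (hadd : ∀ P Q, p P → p Q → p (P + Q))
    (hX : ∀ (v : V) (Q : MvPolynomial V ℂ), p Q → (∀ w, p (pderiv w Q)) → p (X v * Q)) :
    ∀ Q, p Q := by
  have key : ∀ (n : ℕ) (d : V →₀ ℕ), (∑ v, d v) = n → ∀ a : ℂ, p (monomial d a) := by
    intro n
    induction n using Nat.strong_induction_on with
    | _ n ih =>
      intro d hd a
      by_cases h0 : d = 0
      · subst h0
        exact h1 a
      · obtain ⟨v, hv⟩ : ∃ v, d v ≠ 0 := by
          by_contra hcon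
          push Not at hcon
          exact h0 (Finsupp.ext hcon)
        set d' : V →₀ ℕ := d - Finsupp.single v 1 with hd'
        have hdd : d = Finsupp.single v 1 + d' := by
          ext i
          simp only [hd', Finsupp.add_apply, Finsupp.tsub_apply]
          by_cases hi : v = i
          · subst hi
            simp only [Finsupp.single_eq_same]
            omega
          · simp [Finsupp.single_apply, hi]
        have hsum : (∑ i, d' i) + 1 = n := by
          rw [← hd]
          conv_rhs => rw [hdd]
          simp only [Finsupp.add_apply, Finset.sum_add_distrib]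
          rw [add_comm]
          congr 1
          simp [Finsupp.single_apply]
        have e : monomial d a = X v * monomial d' a := by
          rw [MvPolynomial.X, monomial_mul, one_mul, ← hdd]
        rw [e]
        refine hX v _ (ih _ (by omega) d' rfl a) ?_
        intro w
        rw [pderiv_monomial]
        have hle : (∑ i, (d' - Finsupp.single w 1 : V →₀ ℕ) i) ≤ ∑ i, d' i :=
          Finset.sum_le_sum (fun i _ => by simp [Finsupp.tsub_apply])
        exact ih _ (by omega) _ rfl _
  intro Q
  induction Q using MvPolynomial.induction_on' with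
  | monomial d a => exact key _ d rfl a
  | add P Q hP hQ => exact hadd P Q hP hQ

/-- the operator `X v + ∑ w, W v w ∂_w` -/
noncomputable def opA (W : V → V → ℂ) (v : V) : Module.End ℂ (MvPolynomial V ℂ) :=
  LinearMap.mulLeft ℂ (X v) + ∑ w, W v w • ((pderiv w : Derivation ℂ _ _) :
    MvPolynomial V ℂ →ₗ[ℂ] MvPolynomial V ℂ)

theorem opA_apply (W : V → V → ℂ) (v : V) (Q : MvPolynomial V ℂ) :
    opA W v Q = X v * Q + ∑ w, C (W v w) * pderiv w Q := by
  simp [opA, LinearMap.sum_apply, MvPolynomial.smul_eq_C_mul]

theorem pderiv_comm (v w : V) (Q : MvPolynomial V ℂ) :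
    pderiv v (pderiv w Q) = pderiv w (pderiv v Q) := by
  induction Q using MvPolynomial.induction_on with
  | C a => simp
  | add p q hp hq => simp [hp, hq]
  | mul_X p i hp =>
    simp only [pderiv_mul, map_add, hp, pderiv_X]
    have h1 : ∀ (a b c : V), pderiv a (Pi.single (M := fun _ => MvPolynomial V ℂ) b 1 c) = 0 := by
      intro a b c
      by_cases h : c = b
      · subst h; simp
      · simp [Pi.single_eq_of_ne h]
    rw [h1, h1]
    ring

theorem opA_comm {W : V → V → ℂ} (hW : ∀ v w, W v w = W w v) (v v' : V) :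
    opA W v * opA W v' = opA W v' * opA W v := by
  have key : ∀ (v v' : V) (Q : MvPolynomial V ℂ), opA W v (opA W v' Q) =
      X v * X v' * Q + (∑ w, C (W v' w) * (X v * pderiv w Q) +
      ∑ w, C (W v w) * (X v' * pderiv w Q)) + C (W v v') * Q +
      ∑ w, ∑ u, C (W v w * W v' u) * pderiv w (pderiv u Q) := by
    intro v v' Q
    rw [opA_apply, opA_apply]
    have e1 : ∀ w, pderiv w (X v' * Q + ∑ u, C (W v' u) * pderiv u Q) =
        Pi.single (M := fun _ => MvPolynomial V ℂ) w 1 v' * Q + X v' * pderiv w Q +
          ∑ u, C (W v' u) * pderiv w (pderiv u Q) := by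
      intro w
      rw [map_add, pderiv_mul, pderiv_X, map_sum]
      simp only [pderiv_C_mul]
    simp only [e1, mul_add, Finset.sum_add_distrib, Finset.mul_sum]
    have e2 : ∑ w, C (W v w) * (Pi.single (M := fun _ => MvPolynomial V ℂ) w 1 v' * Q) =
        C (W v v') * Q := by
      rw [Finset.sum_eq_single v']
      · simp
      · intro b _ hb
        rw [Pi.single_eq_of_ne (Ne.symm hb)]; simp
      · simp
    rw [e2]
    have e3 : ∀ w u, C (W v w) * (C (W v' u) * pderiv w (pderiv u Q)) =
        C (W v w * W v' u) * pderiv w (pderiv u Q) := by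
      intro w u
      rw [C_mul]; ring
    simp only [e3]
    have e4 : ∀ w, X v * (C (W v' w) * pderiv w Q) = C (W v' w) * (X v * pderiv w Q) := by
      intro w; ring
    simp only [e4]
    ring
  refine LinearMap.ext fun Q => ?_
  rw [Module.End.mul_apply, Module.End.mul_apply, key, key]
  rw [hW v v', Finset.sum_comm (s := univ) (t := univ)
    (f := fun w u => C (W v' w * W v u) * pderiv w (pderiv u Q))]
  have e5 : ∀ w u, C (W v' u * W v w) * pderiv u (pderiv w Q) =
      C (W v w * W v' u) * pderiv w (pderiv u Q) := by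
    intro w u
    rw [pderiv_comm, mul_comm (W v' u)]
  simp only [e5]
  ring

/-- evaluation of a polynomial at commuting operators, applied to `1` -/
theorem exists_E {W : V → V → ℂ} (hW : ∀ v w, W v w = W w v) :
    ∃ E : MvPolynomial V ℂ →ₗ[ℂ] MvPolynomial V ℂ, E 1 = 1 ∧
      ∀ v Q, E (X v * Q) = X v * E Q + ∑ w, C (W v w) * pderiv w (E Q) := by
  classical
  have hcomm : ∀ a ∈ Set.range (opA W), ∀ b ∈ Set.range (opA W), a * b = b * a := by
    rintro _ ⟨v, rfl⟩ _ ⟨v', rfl⟩
    exact opA_comm hW v v'
  letI : CommRing (Algebra.adjoin ℂ (Set.range (opA W))) :=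
    Algebra.adjoinCommRingOfComm ℂ hcomm
  let S := Algebra.adjoin ℂ (Set.range (opA W))
  let g : V → S := fun v => ⟨opA W v, Algebra.subset_adjoin ⟨v, rfl⟩⟩
  let φ : MvPolynomial V ℂ →ₐ[ℂ] S := aeval g
  refine ⟨(LinearMap.applyₗ (R := ℂ) (1 : MvPolynomial V ℂ)).comp
    ((S.val.toLinearMap).comp φ.toLinearMap), ?_, ?_⟩
  · simp
  · intro v Q
    have h : φ (X v * Q) = g v * φ Q := by
      rw [map_mul]
      simp [φ]
    simp only [LinearMap.comp_apply, AlgHom.toLinearMap_apply, LinearMap.applyₗ_apply_apply]
    rw [h, map_mul, Module.End.mul_apply]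
    exact opA_apply W v _


/-- the operator `U` of the reflected Gaussian functional -/
theorem exists_U {W : V → V → ℂ} (hW : ∀ v w, W v w = W w v) (m : V → V → ℂ) :
    ∃ U : MvPolynomial V ℂ →ₗ[ℂ] MvPolynomial V ℂ, U 1 = 1 ∧
      (∀ v Q, U (X v * Q) = (∑ j, C (m v j) * X j) * U Q + ∑ w, C (W v w) * U (pderiv w Q)) ∧
      ∀ j Q, pderiv j (U Q) = ∑ v, C (m v j) * U (pderiv v Q) := by
  obtain ⟨E, hE1, hEX⟩ := exists_E hW
  have hEd : ∀ (w : V) (Q : MvPolynomial V ℂ), pderiv w (E Q) = E (pderiv w Q) := by
    intro w Q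
    revert w
    refine ind_deriv (p := fun Q => ∀ w, pderiv w (E Q) = E (pderiv w Q)) ?_ ?_ ?_ Q
    · intro a w
      have : E (C a) = C a := by
        have h := E.map_smul a 1
        rw [hE1, MvPolynomial.smul_eq_C_mul, mul_one] at h
        exact h
      rw [this]; simp
    · intro P Q hP hQ w
      rw [map_add, map_add, map_add, map_add, hP, hQ]
    · intro v Q hQ hdQ w
      rw [hEX, map_add, map_sum, pderiv_mul, pderiv_mul, map_add, hQ, hEX, pderiv_X]
      have e1 : E (Pi.single (M := fun _ => MvPolynomial V ℂ) w 1 v * Q) =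
          Pi.single (M := fun _ => MvPolynomial V ℂ) w 1 v * E Q := by
        by_cases h : v = w
        · subst h; simp
        · rw [Pi.single_eq_of_ne h]; simp
      rw [e1]
      have e2 : ∀ u, pderiv w (C (W v u) * pderiv u (E Q)) = C (W v u) * pderiv u (E (pderiv w Q)) := by
        intro u
        rw [pderiv_C_mul, pderiv_comm, hQ]
      simp only [e2]
      ring
  let T : MvPolynomial V ℂ →ₐ[ℂ] MvPolynomial V ℂ := aeval (fun v => ∑ j, C (m v j) * X j)
  have hTX : ∀ v, T (X v) = ∑ j, C (m v j) * X j := fun v => by simp [T]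
  have hTC : ∀ a : ℂ, T (C a) = C a := fun a => by simp [T, algebraMap_eq]
  have hTd : ∀ (j : V) (R : MvPolynomial V ℂ), pderiv j (T R) = ∑ v, C (m v j) * T (pderiv v R) := by
    intro j R
    induction R using MvPolynomial.induction_on with
    | C a => rw [hTC]; simp
    | add P Q hP hQ => simp only [map_add, hP, hQ, mul_add, Finset.sum_add_distrib]
    | mul_X P i hP =>
      rw [map_mul, pderiv_mul, hP, hTX, map_sum]
      have e1 : ∀ v, T (pderiv v (P * X i)) = T (pderiv v P) * (∑ j, C (m i j) * X j) +
          T P * Pi.single (M := fun _ => MvPolynomial V ℂ) v 1 i := by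
        intro v
        rw [pderiv_mul, map_add, map_mul, map_mul, hTX, pderiv_X]
        congr 2
        by_cases h : i = v
        · subst h; simp
        · rw [Pi.single_eq_of_ne h, map_zero]
      simp only [e1, mul_add, Finset.sum_add_distrib]
      have e2 : ∑ k, pderiv j (C (m i k) * X k) = C (m i j) := by
        rw [Finset.sum_eq_single j]
        · rw [pderiv_C_mul, pderiv_X_self, mul_one]
        · intro b _ hb
          rw [pderiv_C_mul, pderiv_X_of_ne hb, mul_zero]
        · simp
      have e3 : ∑ v, C (m v j) * (T P * Pi.single (M := fun _ => MvPolynomial V ℂ) v 1 i) =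
          C (m i j) * T P := by
        rw [Finset.sum_eq_single i]
        · simp
        · intro b _ hb
          rw [Pi.single_eq_of_ne (Ne.symm hb)]; simp
        · simp
      rw [e2, e3, Finset.sum_mul]
      have e4 : ∀ v, C (m v j) * T (pderiv v P) * (∑ k, C (m i k) * X k) =
          C (m v j) * (T (pderiv v P) * ∑ k, C (m i k) * X k) := by
        intro v; ring
      simp only [e4]
      ring
  refine ⟨T.toLinearMap.comp E, by simp [hE1], ?_, ?_⟩
  · intro v Q
    simp only [LinearMap.comp_apply, AlgHom.toLinearMap_apply]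
    rw [hEX, map_add, map_mul, hTX, map_sum]
    simp only [map_mul, hTC, hEd]
  · intro j Q
    simp only [LinearMap.comp_apply, AlgHom.toLinearMap_apply]
    rw [hTd]
    simp only [hEd]

theorem rowTP : RowTP := by
  intro V _ _ W M hW hM L hL u
  obtain ⟨A, hA⟩ := Pool.Agent.helper16.LSZ.exists_factor hM
  let m : V → V → ℂ := fun v j => conj (A j v)
  have hMm : ∀ v w, M v w = ∑ j, m v j * conj (m w j) := by
    intro v w
    rw [hA, Matrix.mul_apply]
    refine Finset.sum_congr rfl fun j _ => ?_
    simp [m, Matrix.conjTranspose_apply]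
  obtain ⟨U, hU1, hUX, hUd⟩ := exists_U hW m
  have hUC : ∀ a : ℂ, U (C a) = C a := by
    intro a
    have h := U.map_smul a 1
    rw [hU1, MvPolynomial.smul_eq_C_mul, mul_one] at h
    exact h
  have hLC : ∀ (a : ℂ) (Q : MvPolynomial (V ⊕ V) ℂ), L (C a * Q) = a * L Q := by
    intro a Q
    rw [← MvPolynomial.smul_eq_C_mul, map_smul, smul_eq_mul]
  -- derivatives of the two halves
  have dll : ∀ (w : V) (Q : MvPolynomial V ℂ), pderiv (Sum.inl w) (rename (Sum.inl : V → V ⊕ V) Q) =
      rename Sum.inl (pderiv w Q) := by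
    intro w Q
    induction Q using MvPolynomial.induction_on with
    | C a => simp
    | add P Q hP hQ => simp [hP, hQ]
    | mul_X P i hP =>
      rw [map_mul, pderiv_mul, hP, rename_X, pderiv_mul, map_add, map_mul, map_mul, rename_X]
      congr 2
      by_cases h : i = w
      · subst h; simp
      · rw [pderiv_X_of_ne (by simpa using h), pderiv_X_of_ne h, map_zero]
  have drr : ∀ (w : V) (Q : MvPolynomial V ℂ), pderiv (Sum.inr w) (rename (Sum.inr : V → V ⊕ V) Q) =
      rename Sum.inr (pderiv w Q) := by
    intro w Q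
    induction Q using MvPolynomial.induction_on with
    | C a => simp
    | add P Q hP hQ => simp [hP, hQ]
    | mul_X P i hP =>
      rw [map_mul, pderiv_mul, hP, rename_X, pderiv_mul, map_add, map_mul, map_mul, rename_X]
      congr 2
      by_cases h : i = w
      · subst h; simp
      · rw [pderiv_X_of_ne (by simpa using h), pderiv_X_of_ne h, map_zero]
  have dlr : ∀ (w : V) (Q : MvPolynomial V ℂ),
      pderiv (Sum.inl w) (rename (Sum.inr : V → V ⊕ V) Q) = 0 := by
    intro w Q
    induction Q using MvPolynomial.induction_on with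
    | C a => simp
    | add P Q hP hQ => simp [hP, hQ]
    | mul_X P i hP =>
      rw [map_mul, pderiv_mul, hP, rename_X, pderiv_X_of_ne (by simp)]
      simp
  have drl : ∀ (w : V) (Q : MvPolynomial V ℂ),
      pderiv (Sum.inr w) (rename (Sum.inl : V → V ⊕ V) Q) = 0 := by
    intro w Q
    induction Q using MvPolynomial.induction_on with
    | C a => simp
    | add P Q hP hQ => simp [hP, hQ]
    | mul_X P i hP =>
      rw [map_mul, pderiv_mul, hP, rename_X, pderiv_X_of_ne (by simp)]
      simp
  have dcj : ∀ (w : V) (P : MvPolynomial V ℂ), pderiv w (map (starRingEnd ℂ) P) =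
      map (starRingEnd ℂ) (pderiv w P) := fun w P => pderiv_map
  -- base
  have base : ∀ P : MvPolynomial V ℂ,
      L (rename Sum.inr (map (starRingEnd ℂ) P)) = ip (U P) 1 := by
    refine ind_deriv ?_ ?_ ?_
    · intro a
      rw [hUC, map_C, rename_C]
      have h1 := hLC (conj a) 1
      rw [mul_one, hL.one, mul_one] at h1
      rw [h1]
      have h2 := ip_smul_left a (1 : MvPolynomial V ℂ) 1
      rw [mul_one] at h2
      rw [h2]
      have h3 : ip (1 : MvPolynomial V ℂ) 1 = 1 := by
        have := ip_monomial (ι := V) 0 0 1 1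
        simpa [w] using this
      rw [h3, mul_one]
    · intro P Q hP hQ
      rw [map_add, map_add, map_add, map_add, ip_add_left, hP, hQ]
    · intro v P hP hdP
      rw [map_mul, map_X, map_mul, rename_X, hL.step, hUX]
      rw [Fintype.sum_sum_type]
      simp only [dlr, drr, dcj, map_zero, mul_zero, Finset.sum_const_zero, zero_add, KT, hdP]
      rw [ip_add_left, Finset.sum_mul, ip_sum_left, ip_sum_left]
      have e1 : ∀ j, ip (C (m v j) * X j * U P) 1 = 0 := by
        intro j
        rw [mul_assoc, ip_smul_left, ip_X, pderiv_one, ip_zero_right, mul_zero]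
      simp only [e1, Finset.sum_const_zero, zero_add, ip_smul_left]
  have main : ∀ Q P : MvPolynomial V ℂ,
      L (rename Sum.inl Q * rename Sum.inr (map (starRingEnd ℂ) P)) = ip (U P) (U Q) := by
    refine ind_deriv (p := fun Q => ∀ P : MvPolynomial V ℂ,
      L (rename Sum.inl Q * rename Sum.inr (map (starRingEnd ℂ) P)) = ip (U P) (U Q)) ?_ ?_ ?_
    · intro a P
      rw [rename_C, hLC, base, hUC]
      have h2 := ip_smul_right a (U P) (1 : MvPolynomial V ℂ)
      rw [mul_one] at h2
      rw [h2]
    · intro Q Q' hQ hQ' P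
      rw [map_add, add_mul, map_add, hQ, hQ', map_add, ip_add_right]
    · intro v Q hQ hdQ P
      have e0 : rename (Sum.inl : V → V ⊕ V) (X v * Q) = X (Sum.inl v) * rename Sum.inl Q := by
        rw [map_mul, rename_X]
      rw [e0, mul_assoc, hL.step, hUX, Fintype.sum_sum_type]
      simp only [pderiv_mul, dll, dlr, drl, drr, dcj, mul_zero, add_zero, zero_mul, zero_add, KT,
        hdQ, hQ]
      rw [ip_add_right, Finset.sum_mul, ip_sum_right, ip_sum_right]
      have e1 : ∀ j, ip (U P) (C (m v j) * X j * U Q) =
          m v j * ∑ w, conj (m w j) * ip (U (pderiv w P)) (U Q) := by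
        intro j
        rw [mul_assoc, ip_smul_right, ← ip_symm, ip_X, ip_symm, hUd, ip_sum_left]
        simp only [ip_smul_left]
      simp only [e1, ip_smul_right]
      rw [add_comm]
      congr 1
      simp only [hMm, Finset.sum_mul, Finset.mul_sum]
      rw [Finset.sum_comm]
      refine Finset.sum_congr rfl fun j _ => Finset.sum_congr rfl fun w _ => ?_
      ring
  rw [main u u]
  exact nr_nonneg (U u)

end Pool.Agent.helper48.PT
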